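import Mathlib

/-!
# A Hammersley-Chapman-Robbins bound for lattice Gaussians

`E` is an abelian group with a quadratic form `H`, and `w = exp (-β H)` is summable.
Shifts by elements of `E` change `w` by the factors `r f = exp (2 β B(·, f) - β H f)`, whose
covariances are known explicitly.
-/

set_option autoImplicit false

namespace Pool.Agent.Zk97.DG

open Finset

variable {E : Type*} [AddCommGroup E]

/-- The factor by which a shift changes the weight. -/
noncomputable def rr (H : E → ℝ) (B : E → E → ℝ) (β : ℝ) (f φ : E) : ℝ :=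
  Real.exp (2 * β * B φ f - β * H f)

theorem hcr {ι : Type*} (H : E → ℝ) (B : E → E → ℝ) (l : E → ℝ) (β : ℝ)
    (hsub : ∀ φ f, H (φ - f) = H φ - 2 * B φ f + H f)
    (hadd : ∀ f g, H (f + g) = H f + 2 * B f g + H g)
    (hB : ∀ φ f g, B φ (f + g) = B φ f + B φ g)
    (hl : ∀ φ f, l (φ + f) = l φ + l f)
    (hw : Summable fun φ => Real.exp (-β * H φ))
    (hlw : Summable fun φ => l φ ^ 2 * Real.exp (-β * H φ))
    (s : Finset ι) (f : ι → E) (a : ι → ℝ) :
    (2 * (∑ j ∈ s, a j * l (f j)) - ∑ j ∈ s, ∑ k ∈ s, a j * a k *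
        (Real.exp (2 * β * B (f j) (f k)) - 1)) * ∑' φ, Real.exp (-β * H φ) ≤
      ∑' φ, l φ ^ 2 * Real.exp (-β * H φ) := by
  set w : E → ℝ := fun φ => Real.exp (-β * H φ) with hwdef
  have hwpos : ∀ φ, 0 < w φ := fun φ => Real.exp_pos _
  set Z := ∑' φ, w φ with hZ
  have h0 : HasSum w Z := hw.hasSum
  -- shift
  have hshift : ∀ (F : E → ℝ) (c : ℝ) (g : E), HasSum F c → HasSum (fun φ => F (φ - g)) c := by
    intro F c g h
    exact (Equiv.hasSum_iff (f := F) (Equiv.subRight g)).2 h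
  -- first moment
  have h1 : Summable fun φ => l φ * w φ := by
    refine Summable.of_norm_bounded (g := fun φ => w φ + l φ ^ 2 * w φ) (hw.add hlw) ?_
    intro φ
    rw [Real.norm_eq_abs, abs_mul, abs_of_pos (hwpos φ)]
    have : |l φ| ≤ 1 + l φ ^ 2 := by
      rw [abs_le]
      constructor <;> nlinarith [sq_nonneg (l φ + 1), sq_nonneg (l φ - 1)]
    nlinarith [hwpos φ]
  set L := ∑' φ, l φ * w φ with hL
  have h1' : HasSum (fun φ => l φ * w φ) L := h1.hasSum
  have hwr : ∀ φ g, w φ * rr H B β g φ = w (φ - g) := by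
    intro φ g
    simp only [hwdef, rr]
    rw [← Real.exp_add, hsub]
    congr 1
    ring
  have hr : ∀ g, HasSum (fun φ => w φ * rr H B β g φ) Z := by
    intro g
    simp only [hwr]
    exact hshift w Z g h0
  have hrl : ∀ g, HasSum (fun φ => w φ * rr H B β g φ * l φ) (L + l g * Z) := by
    intro g
    have e : (fun φ => w φ * rr H B β g φ * l φ) =
        fun φ => (fun ψ => l ψ * w ψ + l g * w ψ) (φ - g) := by
      funext φ
      have : l φ = l (φ - g) + l g := by
        rw [← hl, sub_add_cancel]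
      rw [hwr, this]
      ring
    rw [e]
    exact hshift _ _ g (h1'.add (h0.mul_left _))
  have hrr : ∀ g g', HasSum (fun φ => w φ * rr H B β g φ * rr H B β g' φ)
      (Real.exp (2 * β * B g g') * Z) := by
    intro g g'
    have e : (fun φ => w φ * rr H B β g φ * rr H B β g' φ) =
        fun φ => Real.exp (2 * β * B g g') * w (φ - (g + g')) := by
      funext φ
      simp only [hwdef, rr]
      rw [← Real.exp_add, ← Real.exp_add, ← Real.exp_add, hsub, hadd, hB]
      congr 1
      ring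
    rw [e]
    exact (hshift _ _ _ h0).mul_left _
  -- the square
  have hS : HasSum (fun φ => l φ ^ 2 * w φ) (∑' φ, l φ ^ 2 * w φ) := hlw.hasSum
  have hlin : HasSum (fun φ => ∑ j ∈ s, a j * (w φ * rr H B β (f j) φ * l φ - l φ * w φ))
      (∑ j ∈ s, a j * ((L + l (f j) * Z) - L)) :=
    hasSum_sum fun j _ => ((hrl (f j)).sub h1').mul_left (a j)
  have hquad : HasSum (fun φ => ∑ j ∈ s, ∑ k ∈ s, a j * a k *
      (w φ * rr H B β (f j) φ * rr H B β (f k) φ - w φ * rr H B β (f j) φ
        - w φ * rr H B β (f k) φ + w φ))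
      (∑ j ∈ s, ∑ k ∈ s, a j * a k * (Real.exp (2 * β * B (f j) (f k)) * Z - Z - Z + Z)) :=
    hasSum_sum fun j _ => hasSum_sum fun k _ =>
      ((((hrr (f j) (f k)).sub (hr (f j))).sub (hr (f k))).add h0).mul_left (a j * a k)
  have htot := (hS.sub (hlin.mul_left 2)).add hquad
  have hnn : 0 ≤ (∑' φ, l φ ^ 2 * w φ) - 2 * (∑ j ∈ s, a j * ((L + l (f j) * Z) - L)) +
      ∑ j ∈ s, ∑ k ∈ s, a j * a k * (Real.exp (2 * β * B (f j) (f k)) * Z - Z - Z + Z) := by
    refine htot.nonneg ?_
    intro φ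
    have key : l φ ^ 2 * w φ
        - 2 * (∑ j ∈ s, a j * (w φ * rr H B β (f j) φ * l φ - l φ * w φ))
        + ∑ j ∈ s, ∑ k ∈ s, a j * a k *
          (w φ * rr H B β (f j) φ * rr H B β (f k) φ - w φ * rr H B β (f j) φ
            - w φ * rr H B β (f k) φ + w φ)
        = w φ * (l φ - ∑ j ∈ s, a j * (rr H B β (f j) φ - 1)) ^ 2 := by
      have e1 : ∑ j ∈ s, a j * (w φ * rr H B β (f j) φ * l φ - l φ * w φ)
          = w φ * l φ * ∑ j ∈ s, a j * (rr H B β (f j) φ - 1) := by
        rw [Finset.mul_sum]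
        refine Finset.sum_congr rfl fun j _ => by ring
      have e2 : ∑ j ∈ s, ∑ k ∈ s, a j * a k *
          (w φ * rr H B β (f j) φ * rr H B β (f k) φ - w φ * rr H B β (f j) φ
            - w φ * rr H B β (f k) φ + w φ)
          = w φ * (∑ j ∈ s, a j * (rr H B β (f j) φ - 1)) ^ 2 := by
        rw [sq, Finset.sum_mul_sum, Finset.mul_sum]
        refine Finset.sum_congr rfl fun j _ => ?_
        rw [Finset.mul_sum]
        refine Finset.sum_congr rfl fun k _ => by ring
      rw [e1, e2]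
      ring
    show 0 ≤ l φ ^ 2 * w φ
        - 2 * (∑ j ∈ s, a j * (w φ * rr H B β (f j) φ * l φ - l φ * w φ))
        + ∑ j ∈ s, ∑ k ∈ s, a j * a k *
          (w φ * rr H B β (f j) φ * rr H B β (f k) φ - w φ * rr H B β (f j) φ
            - w φ * rr H B β (f k) φ + w φ)
    rw [key]
    exact mul_nonneg (hwpos φ).le (sq_nonneg _)
  have e3 : ∑ j ∈ s, a j * ((L + l (f j) * Z) - L) = (∑ j ∈ s, a j * l (f j)) * Z := by
    rw [Finset.sum_mul]
    refine Finset.sum_congr rfl fun j _ => by ring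
  have e4 : ∑ j ∈ s, ∑ k ∈ s, a j * a k * (Real.exp (2 * β * B (f j) (f k)) * Z - Z - Z + Z)
      = (∑ j ∈ s, ∑ k ∈ s, a j * a k * (Real.exp (2 * β * B (f j) (f k)) - 1)) * Z := by
    rw [Finset.sum_mul]
    refine Finset.sum_congr rfl fun j _ => ?_
    rw [Finset.sum_mul]
    refine Finset.sum_congr rfl fun k _ => by ring
  rw [e3, e4] at hnn
  linarith

end Pool.Agent.Zk97.DG
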