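import Mathlib

/-!
# The quadratic form of the long-range chain
-/

set_option autoImplicit false

namespace Pool.Agent.Zk97.DG

open Finset Filter Topology

/-- Sums over functions on a finite set of products are summable. -/
theorem summable_prod_fun {ι : Type*} [Fintype ι] [DecidableEq ι] (g : ι → ℤ → ℝ)
    (h0 : ∀ i z, 0 ≤ g i z) (hg : ∀ i, Summable (g i)) :
    Summable fun φ : ι → ℤ => ∏ i, g i (φ i) := by
  refine summable_of_sum_le (c := ∏ i, ∑' z, g i z)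
    (fun φ => Finset.prod_nonneg fun i _ => h0 i _) ?_
  intro u
  calc ∑ φ ∈ u, ∏ i, g i (φ i)
      ≤ ∑ φ ∈ Fintype.piFinset (fun i => u.image fun φ => φ i), ∏ i, g i (φ i) := by
        refine Finset.sum_le_sum_of_subset_of_nonneg ?_
          (fun φ _ _ => Finset.prod_nonneg fun i _ => h0 i _)
        intro φ hφ
        rw [Fintype.mem_piFinset]
        exact fun i => Finset.mem_image_of_mem _ hφ
    _ = ∏ i, ∑ z ∈ u.image (fun φ => φ i), g i z := by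
        rw [Finset.prod_univ_sum]
    _ ≤ ∏ i, ∑' z, g i z := by
        refine Finset.prod_le_prod (fun i _ => Finset.sum_nonneg fun z _ => h0 i z) ?_
        intro i _
        exact (hg i).sum_le_tsum _ (fun z _ => h0 i z)

/-- The interaction `|x - y| ^ (-α)` of two different points. -/
noncomputable def cc (α : ℝ) (p : ℤ × ℤ) : ℝ :=
  if p.1 = p.2 then 0 else ((|p.1 - p.2| : ℤ) : ℝ) ^ (-α)

lemma cc_nonneg (α : ℝ) (p : ℤ × ℤ) : 0 ≤ cc α p := by
  unfold cc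
  split_ifs
  · exact le_refl 0
  · positivity

lemma cc_swap (α : ℝ) (p : ℤ × ℤ) : cc α p.swap = cc α p := by
  unfold cc
  rcases p with ⟨x, y⟩
  by_cases h : x = y
  · simp [h]
  · simp [h, Ne.symm h, abs_sub_comm]

/-- the configurations vanishing outside `[-N, N]` -/
def Conf (N : ℕ) : AddSubgroup (ℤ → ℤ) where
  carrier := {φ | ∀ x : ℤ, (N : ℤ) < |x| → φ x = 0}
  zero_mem' := fun _ _ => rfl
  add_mem' := fun {a b} ha hb x hx => by simp [ha x hx, hb x hx]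
  neg_mem' := fun {a} ha x hx => by simp [ha x hx]

/-- difference along a pair -/
noncomputable def DD (φ : ℤ → ℤ) (p : ℤ × ℤ) : ℝ := (φ p.1 : ℝ) - φ p.2

/-- the Dirichlet form -/
noncomputable def BB (α : ℝ) (φ ψ : ℤ → ℤ) : ℝ := ∑' p : ℤ × ℤ, cc α p * (DD φ p * DD ψ p)

/-- the Hamiltonian, as in the frozen statement -/
noncomputable def HH (α : ℝ) (φ : ℤ → ℤ) : ℝ :=
  ∑' p : ℤ × ℤ, (if p.1 = p.2 then (0 : ℝ)
    else ((|p.1 - p.2| : ℤ) : ℝ) ^ (-α) * ((φ p.1 : ℝ) - (φ p.2 : ℝ)) ^ 2)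

lemma HH_eq (α : ℝ) (φ : ℤ → ℤ) : HH α φ = BB α φ φ := by
  unfold HH BB
  refine tsum_congr fun p => ?_
  unfold cc DD
  split_ifs
  · simp
  · ring

/-- Indicator of `|p.1| ≤ N`. -/
noncomputable def ind (N : ℕ) (x : ℤ) : ℝ := if |x| ≤ (N : ℤ) then 1 else 0

lemma ind_nonneg (N : ℕ) (x : ℤ) : 0 ≤ ind N x := by
  unfold ind; split_ifs <;> norm_num

lemma ind_le_one (N : ℕ) (x : ℤ) : ind N x ≤ 1 := by
  unfold ind; split_ifs <;> norm_num

lemma cc_section_summable {α : ℝ} (hα : 1 < α) (x : ℤ) : Summable fun y : ℤ => cc α (x, y) := by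
  have h := Real.summable_abs_int_rpow hα
  have h2 : Summable fun y : ℤ => |((x - y : ℤ) : ℝ)| ^ (-α) :=
    (Equiv.summable_iff (f := fun y : ℤ => |(y : ℝ)| ^ (-α)) (Equiv.subLeft x)).2 h
  refine Summable.of_nonneg_of_le (fun y => cc_nonneg α _) ?_ h2
  intro y
  unfold cc
  by_cases hxy : x = y
  · rw [if_pos hxy]; positivity
  · rw [if_neg hxy]
    push_cast
    exact le_refl _

lemma cc_ind_summable {α : ℝ} (hα : 1 < α) (N : ℕ) :
    Summable fun p : ℤ × ℤ => cc α p * ind N p.1 := by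
  rw [summable_prod_of_nonneg (fun p => mul_nonneg (cc_nonneg α p) (ind_nonneg N p.1))]
  constructor
  · intro x
    exact (cc_section_summable hα x).mul_right (ind N x)
  · apply summable_of_finite_support
    refine (Set.finite_Icc (-(N : ℤ)) N).subset ?_
    intro x hx
    rw [Function.mem_support] at hx
    by_contra hx'
    apply hx
    have : ind N x = 0 := by
      unfold ind
      rw [if_neg]
      rw [abs_le]
      exact hx'
    simp [this]

lemma cc_ind_summable' {α : ℝ} (hα : 1 < α) (N : ℕ) :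
    Summable fun p : ℤ × ℤ => cc α p * ind N p.2 := by
  have h : Summable ((fun p : ℤ × ℤ => cc α p * ind N p.1) ∘ (Equiv.prodComm ℤ ℤ)) :=
    (Equiv.summable_iff (Equiv.prodComm ℤ ℤ)).2 (cc_ind_summable hα N)
  refine h.congr ?_
  intro p
  show cc α p.swap * ind N p.swap.1 = _
  rw [cc_swap]
  rfl

lemma conf_bdd {N : ℕ} {φ : ℤ → ℤ} (hφ : φ ∈ Conf N) :
    ∃ M : ℝ, 0 ≤ M ∧ ∀ x, |(φ x : ℝ)| ≤ M * ind N x := by
  refine ⟨∑ x ∈ Finset.Icc (-(N : ℤ)) N, |(φ x : ℝ)|, Finset.sum_nonneg fun x _ => abs_nonneg _, ?_⟩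
  intro x
  by_cases hx : |x| ≤ (N : ℤ)
  · have : ind N x = 1 := if_pos hx
    rw [this, mul_one]
    refine Finset.single_le_sum (f := fun x : ℤ => |(φ x : ℝ)|) (fun x _ => abs_nonneg _) ?_
    rw [Finset.mem_Icc]
    exact abs_le.1 hx
  · have : ind N x = 0 := if_neg hx
    rw [hφ x (not_le.1 hx), this]
    simp

lemma DD_le {N : ℕ} {φ : ℤ → ℤ} (hφ : φ ∈ Conf N) :
    ∃ M : ℝ, 0 ≤ M ∧ ∀ p, |DD φ p| ≤ M * (ind N p.1 + ind N p.2) ∧ |DD φ p| ≤ 2 * M := by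
  obtain ⟨M, hM, h⟩ := conf_bdd hφ
  refine ⟨M, hM, fun p => ?_⟩
  have h1 := h p.1
  have h2 := h p.2
  have h3 : |DD φ p| ≤ |(φ p.1 : ℝ)| + |(φ p.2 : ℝ)| := abs_sub _ _
  refine ⟨by linarith, ?_⟩
  have h4 := ind_le_one N p.1
  have h5 := ind_le_one N p.2
  nlinarith

/-- If `φ` has bounded support and `b` is bounded then `cc * Dφ * b` is summable. -/
lemma summable_mul {α : ℝ} (hα : 1 < α) {N : ℕ} {φ : ℤ → ℤ} (hφ : φ ∈ Conf N)
    (b : ℤ × ℤ → ℝ) (K : ℝ) (hb : ∀ p, |b p| ≤ K) :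
    Summable fun p : ℤ × ℤ => cc α p * (DD φ p * b p) := by
  obtain ⟨M, hM, h⟩ := DD_le hφ
  have hs := ((cc_ind_summable hα N).add (cc_ind_summable' hα N)).mul_left (M * K)
  refine Summable.of_norm_bounded hs ?_
  intro p
  rw [Real.norm_eq_abs, abs_mul, abs_mul, abs_of_nonneg (cc_nonneg α p)]
  have h1 := (h p).1
  have h2 := hb p
  have h3 := cc_nonneg α p
  have h4 : |DD φ p| * |b p| ≤ M * (ind N p.1 + ind N p.2) * K := by
    apply mul_le_mul h1 h2 (abs_nonneg _)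
    have := ind_nonneg N p.1
    have := ind_nonneg N p.2
    positivity
  calc cc α p * (|DD φ p| * |b p|) ≤ cc α p * (M * (ind N p.1 + ind N p.2) * K) :=
        mul_le_mul_of_nonneg_left h4 h3
    _ = M * K * (cc α p * ind N p.1 + cc α p * ind N p.2) := by ring

lemma summable_BB {α : ℝ} (hα : 1 < α) {N N' : ℕ} {φ ψ : ℤ → ℤ} (hφ : φ ∈ Conf N)
    (hψ : ψ ∈ Conf N') : Summable fun p : ℤ × ℤ => cc α p * (DD φ p * DD ψ p) := by
  obtain ⟨M, hM, h⟩ := DD_le hψ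
  exact summable_mul hα hφ _ (2 * M) (fun p => (h p).2)

lemma DD_add (φ ψ : ℤ → ℤ) (p : ℤ × ℤ) : DD (φ + ψ) p = DD φ p + DD ψ p := by
  unfold DD; simp only [Pi.add_apply]; push_cast; ring

lemma DD_sub (φ ψ : ℤ → ℤ) (p : ℤ × ℤ) : DD (φ - ψ) p = DD φ p - DD ψ p := by
  unfold DD; simp only [Pi.sub_apply]; push_cast; ring

lemma BB_add {α : ℝ} (hα : 1 < α) {N : ℕ} {φ f g : ℤ → ℤ} (hφ : φ ∈ Conf N)
    (hf : f ∈ Conf N) (hg : g ∈ Conf N) : BB α φ (f + g) = BB α φ f + BB α φ g := by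
  unfold BB
  rw [← (summable_BB hα hφ hf).tsum_add (summable_BB hα hφ hg)]
  refine tsum_congr fun p => ?_
  rw [DD_add]; ring

lemma HH_add {α : ℝ} (hα : 1 < α) {N : ℕ} {f g : ℤ → ℤ} (hf : f ∈ Conf N) (hg : g ∈ Conf N) :
    HH α (f + g) = HH α f + 2 * BB α f g + HH α g := by
  rw [HH_eq, HH_eq, HH_eq]
  unfold BB
  rw [← tsum_mul_left, ← (summable_BB hα hf hf).tsum_add ((summable_BB hα hf hg).mul_left 2),
    ← ((summable_BB hα hf hf).add ((summable_BB hα hf hg).mul_left 2)).tsum_add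
      (summable_BB hα hg hg)]
  refine tsum_congr fun p => ?_
  rw [DD_add]; ring

lemma HH_sub {α : ℝ} (hα : 1 < α) {N : ℕ} {f g : ℤ → ℤ} (hf : f ∈ Conf N) (hg : g ∈ Conf N) :
    HH α (f - g) = HH α f - 2 * BB α f g + HH α g := by
  rw [HH_eq, HH_eq, HH_eq]
  unfold BB
  rw [← tsum_mul_left, ← (summable_BB hα hf hf).tsum_sub ((summable_BB hα hf hg).mul_left 2),
    ← ((summable_BB hα hf hf).sub ((summable_BB hα hf hg).mul_left 2)).tsum_add
      (summable_BB hα hg hg)]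
  refine tsum_congr fun p => ?_
  rw [DD_sub]; ring

/-- lower bound of the energy -/
lemma HH_lower {α : ℝ} (hα : 1 < α) {N : ℕ} {φ : ℤ → ℤ} (hφ : φ ∈ Conf N) :
    ((2 * N + 1 : ℕ) : ℝ) ^ (-α) * ∑ x ∈ Finset.Icc (-(N : ℤ)) N, (φ x : ℝ) ^ 2 ≤ HH α φ := by
  rw [HH_eq]
  unfold BB
  have hs := summable_BB hα hφ hφ
  have hinj : Function.Injective (fun x : ℤ => ((x, (N : ℤ) + 1) : ℤ × ℤ)) := by
    intro x y h
    exact (Prod.mk.inj h).1
  have h1 := hs.sum_le_tsum (s := (Finset.Icc (-(N : ℤ)) N).map ⟨_, hinj⟩)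
    (fun p _ => mul_nonneg (cc_nonneg α p) (mul_self_nonneg _))
  refine le_trans ?_ h1
  rw [Finset.sum_map, Finset.mul_sum]
  refine Finset.sum_le_sum fun x hx => ?_
  rw [Finset.mem_Icc] at hx
  simp only [Function.Embedding.coeFn_mk]
  have hz : φ ((N : ℤ) + 1) = 0 := hφ _ (by
    rw [abs_of_nonneg (by positivity)]
    linarith)
  unfold cc DD
  have hne : x ≠ (N : ℤ) + 1 := by omega
  simp only [hne, if_false]
  rw [hz]
  have habs : |x - ((N : ℤ) + 1)| = (N : ℤ) + 1 - x := by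
    rw [abs_of_nonpos (by omega)]
    ring
  rw [habs]
  have h2 : ((2 * N + 1 : ℕ) : ℝ) ^ (-α) ≤ (((N : ℤ) + 1 - x : ℤ) : ℝ) ^ (-α) := by
    apply Real.rpow_le_rpow_of_nonpos
    · exact_mod_cast (by omega : (0 : ℤ) < (N : ℤ) + 1 - x)
    · exact_mod_cast (by omega : (N : ℤ) + 1 - x ≤ 2 * N + 1)
    · linarith
  have h3 : (0 : ℝ) ≤ (φ x : ℝ) ^ 2 := sq_nonneg _
  calc ((2 * N + 1 : ℕ) : ℝ) ^ (-α) * (φ x : ℝ) ^ 2
      ≤ (((N : ℤ) + 1 - x : ℤ) : ℝ) ^ (-α) * (φ x : ℝ) ^ 2 := mul_le_mul_of_nonneg_right h2 h3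
    _ = _ := by push_cast; ring

end Pool.Agent.Zk97.DG
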