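import Pool.Agent.Zk97.DG.Abs
import Pool.Agent.Zk97.DG.Conf

/-!
# Delocalisation of the long-range discrete Gaussian chain
-/

set_option autoImplicit false

namespace Pool.Agent.Zk97.DG

open Finset Filter Topology

/-- indicator of the interval `[-a, a]` -/
def box (a : ℕ) : ℤ → ℤ := fun x => if |x| ≤ (a : ℤ) then 1 else 0

lemma box_mem {a N : ℕ} (h : a ≤ N) : box a ∈ Conf N := by
  intro x hx
  unfold box
  rw [if_neg]
  rw [not_le]
  exact lt_of_le_of_lt (by exact_mod_cast h) hx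

/-- indicator of the half line `x > s` -/
def kink (s : ℤ) : ℤ → ℤ := fun x => if s < x then 1 else 0

lemma box_eq (a : ℕ) : box a = kink (-(a : ℤ) - 1) - kink a := by
  funext x
  simp only [box, kink, Pi.sub_apply, abs_le]
  split_ifs <;> omega

/-- the summable majorant -/
noncomputable def uu (α : ℝ) (x : ℤ) : ℝ := |(x : ℝ)| ^ (-(α / 2)) + if x = 0 then 1 else 0

lemma uu_nonneg (α : ℝ) (x : ℤ) : 0 ≤ uu α x := by
  unfold uu
  have : (0 : ℝ) ≤ |(x : ℝ)| ^ (-(α / 2)) := by positivity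
  split_ifs <;> linarith

lemma uu_summable {α : ℝ} (hα : 2 < α) : Summable (uu α) := by
  unfold uu
  refine (Real.summable_abs_int_rpow (by linarith : 1 < α / 2)).add ?_
  exact (hasSum_ite_eq (0 : ℤ) (1 : ℝ)).summable

lemma uu_of_ne {α : ℝ} {x : ℤ} (hx : x ≠ 0) : uu α x = |(x : ℝ)| ^ (-(α / 2)) := by
  unfold uu
  rw [if_neg hx, add_zero]

lemma uu_zero {α : ℝ} (hα : 2 < α) : uu α 0 = 1 := by
  unfold uu
  rw [if_pos rfl, Int.cast_zero, abs_zero, Real.zero_rpow (by linarith), zero_add]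

lemma key_bound {α : ℝ} (hα : 2 < α) (x y : ℤ) (hx : x ≤ 0) (hy : 0 < y) :
    ((y - x : ℤ) : ℝ) ^ (-α) ≤ uu α x * uu α y := by
  rw [uu_of_ne hy.ne']
  have hy' : (0 : ℝ) < y := by exact_mod_cast hy
  have hy1 : (1 : ℝ) ≤ y := by exact_mod_cast hy
  rw [abs_of_pos hy']
  push_cast
  rcases eq_or_lt_of_le hx with h | h
  · subst h
    rw [uu_zero hα, one_mul]
    simp only [Int.cast_zero, sub_zero]
    apply Real.rpow_le_rpow_of_exponent_le hy1
    linarith
  · rw [uu_of_ne h.ne]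
    have hx' : (0 : ℝ) < -(x : ℝ) := by
      have : (x : ℝ) < 0 := by exact_mod_cast h
      linarith
    have habs : |(x : ℝ)| = -(x : ℝ) := abs_of_neg (by linarith)
    rw [habs, ← Real.mul_rpow hx'.le hy'.le]
    have hsq : ((y : ℝ) - x) ^ (-α) = (((y : ℝ) - x) ^ 2) ^ (-(α / 2)) := by
      rw [← Real.rpow_natCast, ← Real.rpow_mul (by linarith)]
      congr 1
      push_cast
      ring
    rw [hsq]
    apply Real.rpow_le_rpow_of_nonpos
    · positivity
    · nlinarith
    · linarith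

lemma DD_kink_zero (p : ℤ × ℤ) (h : (p.1 ≤ 0 ∧ p.2 ≤ 0) ∨ (0 < p.1 ∧ 0 < p.2)) :
    DD (kink 0) p = 0 := by
  unfold DD kink
  rcases h with h | h
  · rw [if_neg (by omega), if_neg (by omega)]; simp
  · rw [if_pos (by omega), if_pos (by omega)]; simp

lemma kink_summable {α : ℝ} (hα : 2 < α) :
    Summable fun p : ℤ × ℤ => cc α p * (DD (kink 0) p) ^ 2 := by
  have hu := uu_summable hα
  have hs : Summable fun p : ℤ × ℤ => uu α p.1 * uu α p.2 :=
    hu.mul_of_nonneg hu (uu_nonneg α) (uu_nonneg α)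
  refine Summable.of_nonneg_of_le (fun p => mul_nonneg (cc_nonneg α p) (sq_nonneg _)) ?_ hs
  intro p
  have hnn : 0 ≤ uu α p.1 * uu α p.2 := mul_nonneg (uu_nonneg α _) (uu_nonneg α _)
  rcases lt_or_ge 0 p.1 with h1 | h1 <;> rcases lt_or_ge 0 p.2 with h2 | h2
  · rw [DD_kink_zero p (Or.inr ⟨h1, h2⟩)]
    simpa using hnn
  · have h := key_bound hα p.2 p.1 h2 h1
    have hne : p.1 ≠ p.2 := by omega
    unfold cc DD kink
    rw [if_neg hne, if_pos h1, if_neg (by omega), abs_of_pos (by omega)]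
    simp only [Int.cast_one, Int.cast_zero, sub_zero, one_pow, mul_one]
    rw [mul_comm]
    exact h
  · have h := key_bound hα p.1 p.2 h1 h2
    have hne : p.1 ≠ p.2 := by omega
    unfold cc DD kink
    rw [if_neg hne, if_neg (by omega), if_pos h2, abs_of_neg (by omega)]
    have e : (-(p.1 - p.2) : ℤ) = p.2 - p.1 := by ring
    rw [e]
    simpa using h
  · rw [DD_kink_zero p (Or.inl ⟨h1, h2⟩)]
    simpa using hnn

lemma cc_shift (α : ℝ) (p : ℤ × ℤ) (s : ℤ) : cc α (p + (s, s)) = cc α p := by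
  unfold cc
  simp

lemma DD_kink_shift (p : ℤ × ℤ) (s : ℤ) : DD (kink s) (p + (s, s)) = DD (kink 0) p := by
  unfold DD kink
  simp

lemma kink_hasSum {α : ℝ} (hα : 2 < α) (s : ℤ) :
    HasSum (fun p : ℤ × ℤ => cc α p * (DD (kink s) p) ^ 2)
      (∑' p : ℤ × ℤ, cc α p * (DD (kink 0) p) ^ 2) := by
  have h := (kink_summable hα).hasSum
  rw [← Equiv.hasSum_iff (Equiv.addRight ((s, s) : ℤ × ℤ))]
  have e : (fun p : ℤ × ℤ => cc α p * (DD (kink s) p) ^ 2) ∘ (Equiv.addRight ((s, s) : ℤ × ℤ)) =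
      fun p : ℤ × ℤ => cc α p * (DD (kink 0) p) ^ 2 := by
    funext p
    show cc α (p + (s, s)) * (DD (kink s) (p + (s, s))) ^ 2 = _
    rw [cc_shift, DD_kink_shift]
  rw [e]
  exact h

/-- The energy of a kink. -/
noncomputable def kap (α : ℝ) : ℝ := ∑' p : ℤ × ℤ, cc α p * (DD (kink 0) p) ^ 2

lemma kap_nonneg (α : ℝ) : 0 ≤ kap α :=
  tsum_nonneg fun p => mul_nonneg (cc_nonneg α p) (sq_nonneg _)

/-- The energies of the indicators of intervals are bounded. -/
lemma BB_box_le {α : ℝ} (hα : 2 < α) (a : ℕ) : BB α (box a) (box a) ≤ 4 * kap α := by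
  have h1 := kink_hasSum hα (-(a : ℤ) - 1)
  have h2 := kink_hasSum hα a
  have h3 := (h1.add h2).mul_left 2
  have h4 := (summable_BB (by linarith : 1 < α) (box_mem (le_refl a)) (box_mem (le_refl a))).hasSum
  have h5 := hasSum_le ?_ h4 h3
  · unfold BB kap
    linarith
  · intro p
    have hc := cc_nonneg α p
    rw [box_eq, DD_sub]
    nlinarith [mul_nonneg hc (sq_nonneg (DD (kink (-(a : ℤ) - 1)) p + DD (kink a) p))]

lemma DD_box_abs_le (b : ℕ) (p : ℤ × ℤ) : |DD (box b) p| ≤ 1 := by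
  unfold DD box
  split_ifs <;> simp

/-- The form of a fixed configuration and a large interval is small. -/
lemma BB_box_tendsto {α : ℝ} (hα : 1 < α) {N : ℕ} {φ : ℤ → ℤ} (hφ : φ ∈ Conf N) :
    Tendsto (fun b : ℕ => BB α φ (box b)) atTop (𝓝 0) := by
  have hs : Summable fun p : ℤ × ℤ => |cc α p * (DD φ p * 1)| :=
    (summable_mul hα hφ (fun _ => 1) 1 (fun _ => by simp)).abs
  have h := tendsto_tsum_of_dominated_convergence (𝓕 := atTop)
    (f := fun (b : ℕ) (p : ℤ × ℤ) => cc α p * (DD φ p * DD (box b) p))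
    (g := fun _ => (0 : ℝ)) hs ?_ ?_
  · simpa [BB] using h
  · intro p
    refine tendsto_const_nhds.congr' ?_
    filter_upwards [eventually_ge_atTop (max p.1.natAbs p.2.natAbs)] with b hb
    have h1 : |p.1| ≤ (b : ℤ) := by
      have := le_trans (le_max_left _ _) hb
      rw [Int.abs_eq_natAbs]
      exact_mod_cast this
    have h2 : |p.2| ≤ (b : ℤ) := by
      have := le_trans (le_max_right _ _) hb
      rw [Int.abs_eq_natAbs]
      exact_mod_cast this
    unfold DD box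
    rw [if_pos h1, if_pos h2]
    simp
  · refine Eventually.of_forall fun b p => ?_
    rw [Real.norm_eq_abs, abs_mul, abs_mul, abs_mul, abs_mul, abs_one]
    have h1 := DD_box_abs_le b p
    exact mul_le_mul_of_nonneg_left (mul_le_mul_of_nonneg_left h1 (abs_nonneg _)) (abs_nonneg _)

/-- Sequence of intervals with almost orthogonal indicators. -/
lemma exists_boxes {α : ℝ} (hα : 1 < α) {ε : ℝ} (hε : 0 < ε) :
    ∃ L : ℕ → ℕ, ∀ j k, j < k → BB α (box (L j)) (box (L k)) ≤ ε := by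
  obtain ⟨L, _, hL⟩ := exists_seq_of_forall_finset_exists (fun _ : ℕ => True)
    (fun a b : ℕ => BB α (box a) (box b) ≤ ε) (by
      intro s _
      have h : ∀ x ∈ s, ∀ᶠ b : ℕ in atTop, BB α (box x) (box b) ≤ ε := by
        intro x _
        exact (BB_box_tendsto hα (box_mem (le_refl x))).eventually_le_const hε
      obtain ⟨b, hb⟩ := ((Filter.eventually_all_finset s).2 h).exists
      exact ⟨b, trivial, hb⟩)
  exact ⟨L, hL⟩

lemma BB_comm (α : ℝ) (φ ψ : ℤ → ℤ) : BB α φ ψ = BB α ψ φ := by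
  unfold BB
  exact tsum_congr fun p => by ring

/-- majorant of the weights -/
lemma gauss_summable {c : ℝ} (hc : 0 < c) :
    Summable fun z : ℤ => (1 + (z : ℝ) ^ 2) * Real.exp (-c * (z : ℝ) ^ 2) := by
  have hnat : Summable fun n : ℕ => (1 + (n : ℝ) ^ 2) * Real.exp (-c * (n : ℝ) ^ 2) := by
    have h0 := Real.summable_pow_mul_exp_neg_nat_mul 0 hc
    have h2 := Real.summable_pow_mul_exp_neg_nat_mul 2 hc
    refine Summable.of_nonneg_of_le (fun n => by positivity) ?_ (h0.add h2)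
    intro n
    have hn : (n : ℝ) ≤ (n : ℝ) ^ 2 := by
      rcases Nat.eq_zero_or_pos n with h | h
      · subst h; simp
      · have : (1 : ℝ) ≤ n := by exact_mod_cast h
        nlinarith
    have he : Real.exp (-c * (n : ℝ) ^ 2) ≤ Real.exp (-c * n) := by
      apply Real.exp_le_exp.2
      nlinarith
    have := mul_le_mul_of_nonneg_left he (by positivity : (0 : ℝ) ≤ 1 + (n : ℝ) ^ 2)
    calc _ ≤ _ := this
      _ = _ := by ring
  apply Summable.of_nat_of_neg
  · simpa using hnat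
  · simpa using hnat

lemma weight_le {α β : ℝ} (hα : 1 < α) (hβ : 0 < β) {N : ℕ} {φ : ℤ → ℤ} (hφ : φ ∈ Conf N) :
    (1 + (φ 0 : ℝ) ^ 2) * Real.exp (-β * HH α φ) ≤
      ∏ x ∈ Finset.Icc (-(N : ℤ)) N, (1 + (φ x : ℝ) ^ 2) *
        Real.exp (-(β * ((2 * N + 1 : ℕ) : ℝ) ^ (-α)) * (φ x : ℝ) ^ 2) := by
  rw [Finset.prod_mul_distrib, ← Real.exp_sum, ← Finset.mul_sum]
  have h := HH_lower hα hφ
  apply mul_le_mul
  · have h0 : ({0} : Finset ℤ) ⊆ Finset.Icc (-(N : ℤ)) N := by
      intro x hx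
      rw [Finset.mem_singleton] at hx
      subst hx
      simp
    have h1 := Finset.prod_le_prod_of_subset_of_one_le h0
      (f := fun x : ℤ => 1 + (φ x : ℝ) ^ 2) (fun x _ => by positivity)
      (fun x _ _ => by nlinarith [sq_nonneg (φ x : ℝ)])
    simpa using h1
  · apply Real.exp_le_exp.2
    nlinarith
  · positivity
  · exact Finset.prod_nonneg fun x _ => by positivity

end Pool.Agent.Zk97.DG
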