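import Pool.Agent.Zk97.DG.Main

/-!
# Interaction of kinks
-/

set_option autoImplicit false

namespace Pool.Agent.Zk97.DG

open Finset Filter Topology

/-- the double sum `∑ (i + j + 1 + r) ^ (-α)` -/
noncomputable def gg (α : ℝ) (r : ℕ) (q : ℕ × ℕ) : ℝ := ((q.1 + q.2 + 1 + r : ℕ) : ℝ) ^ (-α)

lemma gg_nonneg (α : ℝ) (r : ℕ) (q : ℕ × ℕ) : 0 ≤ gg α r q := by
  unfold gg; positivity

lemma gg_le {α : ℝ} (hα : 2 < α) (r : ℕ) (q : ℕ × ℕ) : gg α r q ≤ gg α 0 q := by
  unfold gg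
  apply Real.rpow_le_rpow_of_nonpos
  · positivity
  · push_cast
    have : (0 : ℝ) ≤ r := Nat.cast_nonneg r
    linarith
  · linarith

/-- one ordering of the pairs -/
noncomputable def uh (α : ℝ) (r : ℕ) (p : ℤ × ℤ) : ℝ :=
  if p.1 ≤ 0 ∧ (r : ℤ) < p.2 then ((p.2 - p.1 : ℤ) : ℝ) ^ (-α) else 0

/-- the parametrisation of the pairs -/
def em (r : ℕ) (q : ℕ × ℕ) : ℤ × ℤ := (-(q.1 : ℤ), (r : ℤ) + 1 + q.2)

lemma em_inj (r : ℕ) : Function.Injective (em r) := by
  intro q q' h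
  unfold em at h
  rw [Prod.mk.injEq] at h
  ext
  · have := h.1; omega
  · have := h.2; omega

lemma uh_em (α : ℝ) (r : ℕ) (q : ℕ × ℕ) : uh α r (em r q) = gg α r q := by
  unfold uh em gg
  rw [if_pos (by constructor <;> (simp; try omega))]
  congr 1
  push_cast
  ring

lemma support_uh (α : ℝ) (r : ℕ) : Function.support (uh α r) ⊆ Set.range (em r) := by
  intro p hp
  rw [Function.mem_support] at hp
  unfold uh at hp
  have h : p.1 ≤ 0 ∧ (r : ℤ) < p.2 := by
    by_contra h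
    rw [if_neg h] at hp
    exact hp rfl
  refine ⟨((-p.1).toNat, (p.2 - r - 1).toNat), ?_⟩
  unfold em
  ext
  · simp; omega
  · simp; omega

lemma DD_kink_mul (α : ℝ) (r : ℕ) (p : ℤ × ℤ) :
    cc α p * (DD (kink 0) p * DD (kink r) p) = uh α r p + uh α r p.swap := by
  unfold cc DD kink uh
  rcases lt_or_ge 0 p.1 with h1 | h1 <;> rcases lt_or_ge 0 p.2 with h2 | h2
  · have e1 : ¬ (p.1 ≤ 0 ∧ (r : ℤ) < p.2) := by omega
    have e2 : ¬ (p.swap.1 ≤ 0 ∧ (r : ℤ) < p.swap.2) := by simp; omega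
    rw [if_neg e1, if_neg e2]
    simp [h1, h2]
  · have hne : p.1 ≠ p.2 := by omega
    have e1 : ¬ (p.1 ≤ 0 ∧ (r : ℤ) < p.2) := by omega
    have e0 : ¬ (0 < p.2) := by omega
    have e3 : ¬ ((r : ℤ) < p.2) := by omega
    rw [if_neg e1, if_neg hne, if_pos h1, if_neg e0, if_neg e3]
    by_cases h3 : (r : ℤ) < p.1
    · have e2 : (p.swap.1 ≤ 0 ∧ (r : ℤ) < p.swap.2) := by simp; omega
      rw [if_pos h3, if_pos e2, abs_of_pos (by omega)]
      simp
    · have e2 : ¬ (p.swap.1 ≤ 0 ∧ (r : ℤ) < p.swap.2) := by simp; omega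
      rw [if_neg h3, if_neg e2]
      simp
  · have hne : p.1 ≠ p.2 := by omega
    have e2 : ¬ (p.swap.1 ≤ 0 ∧ (r : ℤ) < p.swap.2) := by simp; omega
    have e0 : ¬ (0 < p.1) := by omega
    have e3 : ¬ ((r : ℤ) < p.1) := by omega
    rw [if_neg e2, if_neg hne, if_neg e0, if_pos h2, if_neg e3]
    by_cases h3 : (r : ℤ) < p.2
    · have e1 : (p.1 ≤ 0 ∧ (r : ℤ) < p.2) := ⟨h1, h3⟩
      rw [if_pos h3, if_pos e1, abs_of_neg (by omega)]
      have e : (-(p.1 - p.2) : ℤ) = p.2 - p.1 := by ring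
      rw [e]
      simp
    · have e1 : ¬ (p.1 ≤ 0 ∧ (r : ℤ) < p.2) := by omega
      rw [if_neg h3, if_neg e1]
      simp
  · have e1 : ¬ (p.1 ≤ 0 ∧ (r : ℤ) < p.2) := by omega
    have e2 : ¬ (p.swap.1 ≤ 0 ∧ (r : ℤ) < p.swap.2) := by simp; omega
    have e3 : ¬ (0 < p.1) := by omega
    have e4 : ¬ (0 < p.2) := by omega
    rw [if_neg e1, if_neg e2, if_neg e3, if_neg e4]
    simp

lemma summable_kinks {α : ℝ} (hα : 2 < α) (a b : ℤ) :
    Summable fun p : ℤ × ℤ => cc α p * (DD (kink a) p * DD (kink b) p) := by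
  have h1 := (kink_hasSum hα a).summable
  have h2 := (kink_hasSum hα b).summable
  refine Summable.of_norm_bounded (h1.add h2) ?_
  intro p
  rw [Real.norm_eq_abs, abs_mul, abs_of_nonneg (cc_nonneg α p)]
  have hc := cc_nonneg α p
  have h3 : |DD (kink a) p * DD (kink b) p| ≤ DD (kink a) p ^ 2 + DD (kink b) p ^ 2 := by
    rw [abs_le]
    constructor <;> nlinarith [sq_nonneg (DD (kink a) p + DD (kink b) p),
      sq_nonneg (DD (kink a) p - DD (kink b) p), sq_nonneg (DD (kink a) p),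
      sq_nonneg (DD (kink b) p)]
  nlinarith

lemma uh_nonneg (α : ℝ) (r : ℕ) (p : ℤ × ℤ) : 0 ≤ uh α r p := by
  unfold uh
  split_ifs with h
  · have : (0 : ℝ) ≤ ((p.2 - p.1 : ℤ) : ℝ) := by
      exact_mod_cast (by omega : (0 : ℤ) ≤ p.2 - p.1)
    positivity
  · exact le_refl 0

lemma uh_summable {α : ℝ} (hα : 2 < α) (r : ℕ) : Summable (uh α r) := by
  have h := summable_kinks hα 0 (r : ℤ)
  simp only [DD_kink_mul] at h
  refine Summable.of_nonneg_of_le (uh_nonneg α r) ?_ h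
  intro p
  have := uh_nonneg α r p.swap
  linarith

lemma gg_summable {α : ℝ} (hα : 2 < α) (r : ℕ) : Summable (gg α r) := by
  have h := (uh_summable hα r).comp_injective (em_inj r)
  refine h.congr ?_
  intro q
  exact uh_em α r q

/-- the interaction of two kinks at distance `r` -/
noncomputable def kk (α : ℝ) (r : ℕ) : ℝ := 2 * ∑' q, gg α r q

lemma BB_kink_zero {α : ℝ} (hα : 2 < α) (r : ℕ) : BB α (kink 0) (kink r) = kk α r := by
  unfold BB kk
  have h0 : (fun p : ℤ × ℤ => cc α p * (DD (kink 0) p * DD (kink r) p)) =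
      fun p => uh α r p + uh α r p.swap := funext fun p => DD_kink_mul α r p
  rw [h0]
  have h1 := uh_summable hα r
  have h2' : Summable (uh α r ∘ (Equiv.prodComm ℤ ℤ)) :=
    (Equiv.summable_iff (Equiv.prodComm ℤ ℤ)).2 h1
  have h2 : Summable fun p : ℤ × ℤ => uh α r p.swap := h2'
  rw [h1.tsum_add h2]
  have e1 : ∑' p : ℤ × ℤ, uh α r p.swap = ∑' p, uh α r p :=
    (Equiv.prodComm ℤ ℤ).tsum_eq (uh α r)
  have e2 : ∑' p, uh α r p = ∑' q, gg α r q := by
    rw [← (em_inj r).tsum_eq (support_uh α r)]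
    exact tsum_congr fun q => uh_em α r q
  rw [e1, e2]
  ring

lemma kk_nonneg (α : ℝ) (r : ℕ) : 0 ≤ kk α r :=
  mul_nonneg (by norm_num) (tsum_nonneg fun q => gg_nonneg α r q)

lemma kk_le_zero {α : ℝ} (hα : 2 < α) (r : ℕ) : kk α r ≤ kk α 0 := by
  unfold kk
  have := (gg_summable hα r).tsum_le_tsum (gg_le hα r) (gg_summable hα 0)
  linarith

/-- `kk α r ≤ r ^ (2 - α) kk α 0` -/
lemma kk_le {α : ℝ} (hα : 2 < α) (r : ℕ) (hr : 0 < r) :
    kk α r ≤ (r : ℝ) ^ (2 - α) * kk α 0 := by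
  have : NeZero r := ⟨hr.ne'⟩
  have hr' : (0 : ℝ) < r := by exact_mod_cast hr
  have key : ∑' q, gg α r q ≤ (r : ℝ) ^ (2 - α) * ∑' q, gg α 0 q := by
    -- the reindexing
    let e : (ℕ × ℕ) × (Fin r × Fin r) ≃ ℕ × ℕ :=
      (Equiv.prodProdProdComm ℕ ℕ (Fin r) (Fin r)).trans
        ((Nat.divModEquiv r).symm.prodCongr (Nat.divModEquiv r).symm)
    have he : ∀ z, e z = (z.1.1 * r + z.2.1, z.1.2 * r + z.2.2) := by
      intro z
      rfl
    have h1 : ∑' q, gg α r q = ∑' z, gg α r (e z) := (e.tsum_eq (gg α r)).symm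
    have hs1 : Summable fun z => gg α r (e z) := e.summable_iff.2 (gg_summable hα r)
    have hs2 : Summable fun z : (ℕ × ℕ) × (Fin r × Fin r) => (r : ℝ) ^ (-α) * gg α 0 z.1 := by
      have : Summable fun z : (ℕ × ℕ) × (Fin r × Fin r) =>
          ((r : ℝ) ^ (-α) * gg α 0 z.1) * (1 : ℝ) := by
        refine Summable.mul_of_nonneg (f := fun q : ℕ × ℕ => (r : ℝ) ^ (-α) * gg α 0 q)
          (g := fun _ : Fin r × Fin r => (1 : ℝ)) ((gg_summable hα 0).mul_left _)
          (hasSum_fintype _).summable ?_ ?_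
        · intro q
          have := gg_nonneg α 0 q
          positivity
        · intro _
          exact zero_le_one
      simpa using this
    have hle : ∀ z, gg α r (e z) ≤ (r : ℝ) ^ (-α) * gg α 0 z.1 := by
      intro z
      rw [he]
      unfold gg
      rw [← Real.mul_rpow hr'.le (by positivity)]
      apply Real.rpow_le_rpow_of_nonpos
      · positivity
      · push_cast
        have h1 : (0 : ℝ) ≤ ((z.2.1 : ℕ) : ℝ) := Nat.cast_nonneg _
        have h2 : (0 : ℝ) ≤ ((z.2.2 : ℕ) : ℝ) := Nat.cast_nonneg _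
        nlinarith
      · linarith
    rw [h1]
    refine (hs1.tsum_le_tsum hle hs2).trans (le_of_eq ?_)
    rw [hs2.tsum_prod]
    simp only [tsum_fintype, Finset.sum_const, Finset.card_univ, Fintype.card_prod,
      Fintype.card_fin, nsmul_eq_mul]
    rw [← tsum_mul_left]
    refine tsum_congr fun q => ?_
    have : (r : ℝ) ^ (2 - α) = (r : ℝ) ^ (-α) * (r * r) := by
      rw [sub_eq_add_neg, Real.rpow_add hr', mul_comm]
      congr 1
      rw [show (2 : ℝ) = ((2 : ℕ) : ℝ) by norm_num, Real.rpow_natCast, sq]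
    rw [this]
    push_cast
    ring
  unfold kk
  nlinarith

end Pool.Agent.Zk97.DG
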