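import Pool.Agent.Zk97.DG.Box

/-!
# Delocalisation of the long-range discrete Gaussian chain, all temperatures
-/

set_option autoImplicit false

namespace Pool.Agent.Zk97.DG

open Finset Filter Topology

/-- the majorant of the weights is summable -/
lemma major_summable {α β : ℝ} (hα : 1 < α) (hβ : 0 < β) (N : ℕ) :
    Summable fun φ : Conf N => (1 + ((φ : ℤ → ℤ) 0 : ℝ) ^ 2) * Real.exp (-β * HH α φ) := by
  set c : ℝ := β * ((2 * N + 1 : ℕ) : ℝ) ^ (-α) with hc
  have hcpos : 0 < c := by positivity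
  have hprod : Summable fun φ : (Finset.Icc (-(N : ℤ)) N) → ℤ =>
      ∏ i, (1 + (φ i : ℝ) ^ 2) * Real.exp (-c * (φ i : ℝ) ^ 2) :=
    summable_prod_fun (fun _ z => (1 + (z : ℝ) ^ 2) * Real.exp (-c * (z : ℝ) ^ 2))
      (fun _ z => by positivity) (fun _ => gauss_summable hcpos)
  have hinj : Function.Injective
      (fun (φ : Conf N) (i : Finset.Icc (-(N : ℤ)) N) => (φ : ℤ → ℤ) i) := by
    intro φ ψ h
    apply Subtype.ext
    funext x
    by_cases hx : x ∈ Finset.Icc (-(N : ℤ)) N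
    · exact congrFun h ⟨x, hx⟩
    · have hx' : (N : ℤ) < |x| := by
        rw [Finset.mem_Icc, ← abs_le, not_le] at hx
        exact hx
      rw [φ.2 x hx', ψ.2 x hx']
  have h := hprod.comp_injective hinj
  refine Summable.of_nonneg_of_le (fun φ => by positivity) ?_ h
  intro φ
  have h1 := weight_le hα hβ φ.2
  refine h1.trans (le_of_eq ?_)
  show _ = ∏ i : Finset.Icc (-(N : ℤ)) N, (1 + ((φ : ℤ → ℤ) i : ℝ) ^ 2) *
    Real.exp (-c * ((φ : ℤ → ℤ) i : ℝ) ^ 2)
  rw [Finset.prod_coe_sort (Finset.Icc (-(N : ℤ)) N) (fun x => (1 + ((φ : ℤ → ℤ) x : ℝ) ^ 2) *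
    Real.exp (-c * ((φ : ℤ → ℤ) x : ℝ) ^ 2))]

lemma w_summable {α β : ℝ} (hα : 1 < α) (hβ : 0 < β) (N : ℕ) :
    Summable fun φ : Conf N => Real.exp (-β * HH α φ) := by
  refine Summable.of_nonneg_of_le (fun φ => (Real.exp_pos _).le) ?_ (major_summable hα hβ N)
  intro φ
  nlinarith [Real.exp_pos (-β * HH α φ), sq_nonneg ((φ : ℤ → ℤ) 0 : ℝ)]

lemma lw_summable {α β : ℝ} (hα : 1 < α) (hβ : 0 < β) (N : ℕ) :
    Summable fun φ : Conf N => ((φ : ℤ → ℤ) 0 : ℝ) ^ 2 * Real.exp (-β * HH α φ) := by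
  refine Summable.of_nonneg_of_le (fun φ => by positivity) ?_ (major_summable hα hβ N)
  intro φ
  nlinarith [Real.exp_pos (-β * HH α φ), sq_nonneg ((φ : ℤ → ℤ) 0 : ℝ)]

/-- The second moment at the origin. -/
noncomputable def secondMoment (α β : ℝ) (N : ℕ) : ℝ :=
  (∑' φ : Conf N, ((φ : ℤ → ℤ) 0 : ℝ) ^ 2 * Real.exp (-β * HH α φ)) /
    ∑' φ : Conf N, Real.exp (-β * HH α φ)

/-- The bound for general shifts. -/
theorem secondMoment_ge {α β : ℝ} (hα : 1 < α) (hβ : 0 < β) (N : ℕ) {ι : Type*} (s : Finset ι)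
    (f : ι → Conf N) (a : ι → ℝ) :
    2 * (∑ j ∈ s, a j * ((f j : ℤ → ℤ) 0 : ℝ)) - ∑ j ∈ s, ∑ k ∈ s, a j * a k *
        (Real.exp (2 * β * BB α (f j) (f k)) - 1) ≤ secondMoment α β N := by
  have h := hcr (E := Conf N) (fun φ => HH α φ) (fun φ ψ => BB α φ ψ)
    (fun φ => ((φ : ℤ → ℤ) 0 : ℝ)) β (fun φ f => HH_sub hα φ.2 f.2) (fun f g => HH_add hα f.2 g.2)
    (fun φ f g => BB_add hα φ.2 f.2 g.2) (fun φ f => by push_cast [AddSubgroup.coe_add, Pi.add_apply]; ring)
    (w_summable hα hβ N) (lw_summable hα hβ N) s f a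
  unfold secondMoment
  rw [le_div_iff₀]
  · exact h
  · exact (w_summable hα hβ N).tsum_pos (fun φ => (Real.exp_pos _).le) 0 (Real.exp_pos _)

theorem tendsto_secondMoment {α β : ℝ} (hα : 2 < α) (hβ : 0 < β) :
    Tendsto (fun N => secondMoment α β N) atTop atTop := by
  rw [tendsto_atTop_atTop]
  intro b
  have hα1 : 1 < α := by linarith
  set K : ℝ := Real.exp (2 * β * (4 * kap α)) - 1 with hK
  have hK0 : 0 ≤ K := by
    have : (0 : ℝ) ≤ 2 * β * (4 * kap α) := by
      have := kap_nonneg α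
      positivity
    have := Real.one_le_exp this
    linarith
  obtain ⟨J, hJ⟩ := exists_nat_gt (max 0 (b * (K + 1)))
  have hJpos : (0 : ℝ) < J := lt_of_le_of_lt (le_max_left _ _) hJ
  have hJb : b * (K + 1) < J := lt_of_le_of_lt (le_max_right _ _) hJ
  set ε : ℝ := Real.log (1 + 1 / J) / (2 * β) with hε
  have hlog : 0 < Real.log (1 + 1 / J) := Real.log_pos (by
    have : (0 : ℝ) < 1 / J := by positivity
    linarith)
  have hεpos : 0 < ε := by positivity
  obtain ⟨L, hL⟩ := exists_boxes hα1 hεpos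
  refine ⟨∑ j ∈ range J, L j, fun N hN => ?_⟩
  have hmem : ∀ j : Fin J, box (L j) ∈ Conf N := by
    intro j
    apply box_mem
    refine le_trans ?_ hN
    exact Finset.single_le_sum (f := fun j => L j) (fun _ _ => Nat.zero_le _)
      (Finset.mem_range.2 j.2)
  have h := secondMoment_ge hα1 hβ N (Finset.univ : Finset (Fin J))
    (fun j => ⟨box (L j), hmem j⟩) (fun _ => 1 / (K + 1))
  refine le_trans ?_ h
  have h1 : ∀ j : Fin J, (((⟨box (L j), hmem j⟩ : Conf N) : ℤ → ℤ) 0 : ℝ) = 1 := by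
    intro j
    simp [box]
  have h2 : ∀ j k : Fin J, Real.exp (2 * β * BB α (box (L j)) (box (L k))) - 1 ≤
      (if j = k then K else 0) + 1 / J := by
    intro j k
    by_cases hjk : j = k
    · subst hjk
      rw [if_pos rfl]
      have h3 : Real.exp (2 * β * BB α (box (L j)) (box (L j))) ≤ K + 1 := by
        rw [hK, sub_add_cancel]
        apply Real.exp_le_exp.2
        exact mul_le_mul_of_nonneg_left (BB_box_le hα _) (by positivity)
      have : (0 : ℝ) < 1 / J := by positivity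
      linarith
    · rw [if_neg hjk, zero_add]
      have h3 : BB α (box (L j)) (box (L k)) ≤ ε := by
        rcases lt_or_gt_of_ne (fun h => hjk (Fin.ext h) : (j : ℕ) ≠ k) with h | h
        · exact hL _ _ h
        · rw [BB_comm]
          exact hL _ _ h
      have h4 : Real.exp (2 * β * BB α (box (L j)) (box (L k))) ≤ 1 + 1 / J := by
        rw [← Real.exp_log (by positivity : (0 : ℝ) < 1 + 1 / J)]
        apply Real.exp_le_exp.2
        calc 2 * β * BB α (box (L j)) (box (L k)) ≤ 2 * β * ε :=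
              mul_le_mul_of_nonneg_left h3 (by positivity)
          _ = Real.log (1 + 1 / J) := by
              rw [hε]; field_simp
      linarith
  have h5 : ∑ j : Fin J, ∑ k : Fin J, (1 / (K + 1)) * (1 / (K + 1)) *
      (Real.exp (2 * β * BB α (box (L j)) (box (L k))) - 1) ≤
      ∑ j : Fin J, ∑ k : Fin J, (1 / (K + 1)) * (1 / (K + 1)) *
        ((if j = k then K else 0) + 1 / J) :=
    Finset.sum_le_sum fun j _ => Finset.sum_le_sum fun k _ =>
      mul_le_mul_of_nonneg_left (h2 j k) (by positivity)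
  have h6 : ∑ j : Fin J, ∑ k : Fin J, (1 / (K + 1)) * (1 / (K + 1)) *
        ((if j = k then K else 0) + 1 / J) = J / (K + 1) := by
    simp only [← Finset.mul_sum, Finset.sum_add_distrib, Finset.sum_ite_eq, Finset.mem_univ,
      if_true, Finset.sum_const, Finset.card_univ, Fintype.card_fin, nsmul_eq_mul]
    have : K + 1 ≠ 0 := by positivity
    have hJ' : (J : ℝ) ≠ 0 := hJpos.ne'
    field_simp
  have h7 : ∑ j : Fin J, (1 / (K + 1)) * (((⟨box (L j), hmem j⟩ : Conf N) : ℤ → ℤ) 0 : ℝ) =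
      J / (K + 1) := by
    simp only [h1, mul_one, Finset.sum_const, Finset.card_univ, Fintype.card_fin, nsmul_eq_mul]
    ring
  rw [h7]
  have h8 : b ≤ J / (K + 1) := by
    rw [le_div_iff₀ (by positivity)]
    exact hJb.le
  calc b ≤ 2 * (J / (K + 1)) - J / (K + 1) := by linarith
    _ ≤ _ := by
      rw [← h6]
      have := h5
      simp only at this ⊢
      linarith

end Pool.Agent.Zk97.DG
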