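import Pool.Agent.Zk97.DG.Kink

/-!
# Quantitative delocalisation
-/

set_option autoImplicit false

namespace Pool.Agent.Zk97.DG

open Finset Filter Topology

lemma DD_shift (φ : ℤ → ℤ) (s : ℤ) (p : ℤ × ℤ) :
    DD φ (p + (s, s)) = DD (fun x => φ (x + s)) p := rfl

lemma BB_shift (α : ℝ) (φ ψ : ℤ → ℤ) (s : ℤ) :
    BB α (fun x => φ (x + s)) (fun x => ψ (x + s)) = BB α φ ψ := by
  unfold BB
  have h := (Equiv.addRight ((s, s) : ℤ × ℤ)).tsum_eq
    (fun p : ℤ × ℤ => cc α p * (DD φ p * DD ψ p))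
  rw [← h]
  refine tsum_congr fun p => ?_
  show _ = cc α (p + (s, s)) * (DD φ (p + (s, s)) * DD ψ (p + (s, s)))
  rw [cc_shift, DD_shift, DD_shift]

lemma kink_shift (a s : ℤ) : (fun x => kink a (x + s)) = kink (a - s) := by
  funext x
  unfold kink
  have : (a < x + s) ↔ (a - s < x) := by omega
  simp only [this]

lemma BB_kink_le {α : ℝ} (hα : 2 < α) (a b : ℤ) (h : a ≤ b) :
    BB α (kink a) (kink b) = kk α (b - a).natAbs := by
  rw [← BB_shift α (kink a) (kink b) a, kink_shift, kink_shift, sub_self, ← BB_kink_zero hα]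
  congr 2
  omega

lemma BB_kink {α : ℝ} (hα : 2 < α) (a b : ℤ) :
    BB α (kink a) (kink b) = kk α (a - b).natAbs := by
  rcases le_total a b with h | h
  · rw [BB_kink_le hα a b h]
    congr 1
    omega
  · rw [BB_comm, BB_kink_le hα b a h]

/-- indicator of `[-s, t]` -/
def iv (s t : ℕ) : ℤ → ℤ := fun x => if -(s : ℤ) ≤ x ∧ x ≤ t then 1 else 0

lemma iv_eq (s t : ℕ) : iv s t = kink (-(s : ℤ) - 1) - kink t := by
  funext x
  simp only [iv, kink, Pi.sub_apply]
  split_ifs <;> omega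

lemma iv_mem {s t N : ℕ} (hs : s ≤ N) (ht : t ≤ N) : iv s t ∈ Conf N := by
  intro x hx
  unfold iv
  rw [if_neg]
  intro h
  have : |x| ≤ (N : ℤ) := by
    rw [abs_le]
    constructor <;> omega
  omega

lemma iv_zero (s t : ℕ) : iv s t 0 = 1 := by
  unfold iv
  rw [if_pos]
  constructor <;> omega

lemma BB_iv_le {α : ℝ} (hα : 2 < α) (s t s' t' : ℕ) :
    BB α (iv s t) (iv s' t') ≤
      kk α ((s : ℤ) - s').natAbs + kk α ((t : ℤ) - t').natAbs := by
  set a : ℤ := -(s : ℤ) - 1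
  set a' : ℤ := -(s' : ℤ) - 1
  have h1 := summable_kinks hα a a'
  have h2 := summable_kinks hα a t'
  have h3 := summable_kinks hα t a'
  have h4 := summable_kinks hα t t'
  have e : BB α (iv s t) (iv s' t') = BB α (kink a) (kink a') - BB α (kink a) (kink t')
      - BB α (kink t) (kink a') + BB α (kink t) (kink t') := by
    unfold BB
    rw [← h1.tsum_sub h2, ← (h1.sub h2).tsum_sub h3, ← ((h1.sub h2).sub h3).tsum_add h4]
    refine tsum_congr fun p => ?_
    rw [iv_eq, iv_eq, DD_sub, DD_sub]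
    ring
  rw [e, BB_kink hα, BB_kink hα, BB_kink hα, BB_kink hα]
  have e1 : (a - a').natAbs = ((s : ℤ) - s').natAbs := by omega
  rw [e1]
  have := kk_nonneg α (a - t').natAbs
  have := kk_nonneg α ((t : ℤ) - a').natAbs
  linarith

/-- at most two points at a given distance -/
lemma sum_dist_le (F : ℕ → ℝ) (hF : ∀ r, 0 ≤ F r) (M s : ℕ) (hs : s < M) :
    ∑ s' ∈ range M, F ((s : ℤ) - s').natAbs ≤ 2 * ∑ r ∈ range M, F r := by
  rw [← Finset.sum_fiberwise_of_maps_to (g := fun s' : ℕ => ((s : ℤ) - s').natAbs)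
    (t := range M) (by
      intro s' hs'
      rw [Finset.mem_range] at hs' ⊢
      omega)]
  rw [Finset.mul_sum]
  refine Finset.sum_le_sum fun r hr => ?_
  have h1 : ∑ s' ∈ (range M).filter (fun s' : ℕ => ((s : ℤ) - s').natAbs = r),
      F ((s : ℤ) - s').natAbs =
      ∑ s' ∈ (range M).filter (fun s' : ℕ => ((s : ℤ) - s').natAbs = r), F r := by
    refine Finset.sum_congr rfl fun s' hs' => ?_
    rw [(Finset.mem_filter.1 hs').2]
  rw [h1, Finset.sum_const, nsmul_eq_mul]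
  refine mul_le_mul_of_nonneg_right ?_ (hF r)
  have h2 : (range M).filter (fun s' : ℕ => ((s : ℤ) - s').natAbs = r) ⊆ {s - r, s + r} := by
    intro s' hs'
    rw [Finset.mem_filter] at hs'
    rw [Finset.mem_insert, Finset.mem_singleton]
    have := hs'.2
    omega
  have h3 := (Finset.card_le_card h2).trans Finset.card_le_two
  exact_mod_cast h3

/-- partial sums of `r ^ (-γ)` -/
lemma sum_rpow_le {γ : ℝ} (h0 : 0 ≤ γ) (h1 : γ < 1) (M : ℕ) :
    ∑ r ∈ range M, ((r + 1 : ℕ) : ℝ) ^ (-γ) ≤ (M : ℝ) ^ (1 - γ) / (1 - γ) := by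
  induction M with
  | zero =>
    simp only [Finset.range_zero, Finset.sum_empty, Nat.cast_zero]
    rw [Real.zero_rpow (by linarith)]
    simp
  | succ n ih =>
    rw [Finset.sum_range_succ]
    have hpos : (0 : ℝ) < ((n + 1 : ℕ) : ℝ) := by positivity
    have h2 : (n : ℝ) ^ (1 - γ) ≤ ((n + 1 : ℕ) : ℝ) ^ (1 - γ) -
        (1 - γ) * ((n + 1 : ℕ) : ℝ) ^ (-γ) := by
      have h3 := _root_.rpow_one_add_le_one_add_mul_self (s := -(1 / ((n + 1 : ℕ) : ℝ)))
        (p := 1 - γ) (by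
          have : 1 / ((n + 1 : ℕ) : ℝ) ≤ 1 := by
            rw [div_le_one hpos]
            push_cast
            have : (0 : ℝ) ≤ n := Nat.cast_nonneg n
            linarith
          linarith) (by linarith) (by linarith)
      have h4 : (n : ℝ) = ((n + 1 : ℕ) : ℝ) * (1 + -(1 / ((n + 1 : ℕ) : ℝ))) := by
        field_simp
        push_cast
        ring
      have h5 : 0 ≤ 1 + -(1 / ((n + 1 : ℕ) : ℝ)) := by
        have : 1 / ((n + 1 : ℕ) : ℝ) ≤ 1 := by
          rw [div_le_one hpos]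
          push_cast
          have : (0 : ℝ) ≤ n := Nat.cast_nonneg n
          linarith
        linarith
      have h6 : ((n + 1 : ℕ) : ℝ) ^ (-γ) = ((n + 1 : ℕ) : ℝ) ^ (1 - γ) / ((n + 1 : ℕ) : ℝ) := by
        rw [show -γ = (1 - γ) - 1 by ring, Real.rpow_sub hpos, Real.rpow_one]
      calc (n : ℝ) ^ (1 - γ)
          = (((n + 1 : ℕ) : ℝ) * (1 + -(1 / ((n + 1 : ℕ) : ℝ)))) ^ (1 - γ) := by rw [← h4]
        _ = ((n + 1 : ℕ) : ℝ) ^ (1 - γ) * (1 + -(1 / ((n + 1 : ℕ) : ℝ))) ^ (1 - γ) :=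
            Real.mul_rpow hpos.le h5
        _ ≤ ((n + 1 : ℕ) : ℝ) ^ (1 - γ) * (1 + (1 - γ) * -(1 / ((n + 1 : ℕ) : ℝ))) :=
            mul_le_mul_of_nonneg_left h3 (by positivity)
        _ = _ := by
            rw [h6]
            ring
    have h7 : (n : ℝ) ^ (1 - γ) / (1 - γ) ≤ ((n + 1 : ℕ) : ℝ) ^ (1 - γ) / (1 - γ) -
        ((n + 1 : ℕ) : ℝ) ^ (-γ) := by
      rw [div_le_iff₀ (by linarith), sub_mul, div_mul_cancel₀ _ (by linarith)]
      linarith
    linarith

/-- the exponential moments of the interaction, summed over one coordinate -/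
lemma exp_sum_le {α β : ℝ} (hα : 2 < α) (hα3 : α < 3) (hβ : 0 < β) :
    ∃ A : ℝ, 0 ≤ A ∧ ∀ M : ℕ, ∑ r ∈ range M, (Real.exp (2 * β * kk α r) - 1) ≤
      A + 4 * β * kk α 0 * ((M : ℝ) ^ (3 - α) / (3 - α)) := by
  have hk0 := kk_nonneg α 0
  -- the interaction tends to zero
  have hlim : Tendsto (fun r : ℕ => 2 * β * ((r : ℝ) ^ (2 - α) * kk α 0)) atTop (𝓝 0) := by
    have h := tendsto_rpow_neg_atTop (y := α - 2) (by linarith)
    have h2 := (h.comp tendsto_natCast_atTop_atTop).mul_const (kk α 0)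
    have h3 := h2.const_mul (2 * β)
    simp only [zero_mul, mul_zero] at h3
    refine h3.congr fun r => ?_
    simp only [Function.comp]
    rw [show -(α - 2) = 2 - α by ring]
  obtain ⟨R, hR⟩ := (hlim.eventually_le_const (zero_lt_one)).exists_forall_of_atTop
  set C : ℝ := Real.exp (2 * β * kk α 0) with hC
  have hCpos : 0 < C := Real.exp_pos _
  -- pointwise bound
  have hpt : ∀ r : ℕ, Real.exp (2 * β * kk α (r + 1)) - 1 ≤
      4 * β * kk α 0 * ((r + 1 : ℕ) : ℝ) ^ (2 - α) + (if r < R then C else 0) := by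
    intro r
    have hpow : (0 : ℝ) ≤ ((r + 1 : ℕ) : ℝ) ^ (2 - α) := by positivity
    have hnn : 0 ≤ 4 * β * kk α 0 * ((r + 1 : ℕ) : ℝ) ^ (2 - α) := by positivity
    by_cases hr : r < R
    · rw [if_pos hr]
      have h1 : Real.exp (2 * β * kk α (r + 1)) ≤ C := by
        rw [hC]
        apply Real.exp_le_exp.2
        exact mul_le_mul_of_nonneg_left (kk_le_zero hα _) (by positivity)
      linarith
    · rw [if_neg hr, add_zero]
      have h1 := hR (r + 1) (by omega)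
      have h2 := kk_le hα (r + 1) (Nat.succ_pos r)
      set u : ℝ := 2 * β * (((r + 1 : ℕ) : ℝ) ^ (2 - α) * kk α 0) with hu
      have hu0 : 0 ≤ u := by positivity
      have h3 : Real.exp (2 * β * kk α (r + 1)) ≤ Real.exp u := by
        apply Real.exp_le_exp.2
        exact mul_le_mul_of_nonneg_left h2 (by positivity)
      have h4 : Real.exp u ≤ 1 + 2 * u := by
        have h5 := Real.exp_bound_div_one_sub_of_interval hu0 
        have h6 : |Real.exp u - 1 - u| ≤ u ^ 2 :=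
          Real.abs_exp_sub_one_sub_id_le (by rw [abs_of_nonneg hu0]; exact h1)
        have h7 := (abs_le.1 h6).2
        nlinarith
      have h8 : 2 * u = 4 * β * kk α 0 * ((r + 1 : ℕ) : ℝ) ^ (2 - α) := by
        rw [hu]; ring
      linarith
  refine ⟨C + R * C, by positivity, fun M => ?_⟩
  have hT : 0 ≤ 4 * β * kk α 0 * ((M : ℝ) ^ (3 - α) / (3 - α)) := by
    have : (0 : ℝ) < 3 - α := by linarith
    positivity
  rcases Nat.eq_zero_or_pos M with h | h
  · subst h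
    simp only [Finset.range_zero, Finset.sum_empty]
    positivity
  · obtain ⟨m, rfl⟩ := Nat.exists_eq_succ_of_ne_zero h.ne'
    rw [Finset.sum_range_succ']
    have h1 : ∑ r ∈ range m, (Real.exp (2 * β * kk α (r + 1)) - 1) ≤
        ∑ r ∈ range m, (4 * β * kk α 0 * ((r + 1 : ℕ) : ℝ) ^ (2 - α) + (if r < R then C else 0)) :=
      Finset.sum_le_sum fun r _ => hpt r
    rw [Finset.sum_add_distrib, ← Finset.mul_sum] at h1
    have h2 := sum_rpow_le (γ := α - 2) (by linarith) (by linarith) m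
    rw [show -(α - 2) = 2 - α by ring, show 1 - (α - 2) = 3 - α by ring] at h2
    have h3 : ∑ r ∈ range m, (if r < R then C else 0) ≤ R * C := by
      rw [← Finset.sum_filter, Finset.sum_const, nsmul_eq_mul]
      refine mul_le_mul_of_nonneg_right ?_ hCpos.le
      have h4 : (range m).filter (fun r => r < R) ⊆ range R := by
        intro r hr
        rw [Finset.mem_filter] at hr
        exact Finset.mem_range.2 hr.2
      have := Finset.card_le_card h4
      rw [Finset.card_range] at this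
      exact_mod_cast this
    have h5 : (m : ℝ) ^ (3 - α) / (3 - α) ≤ ((m + 1 : ℕ) : ℝ) ^ (3 - α) / (3 - α) := by
      have h6 : (0 : ℝ) < 3 - α := by linarith
      refine div_le_div_of_nonneg_right ?_ h6.le
      apply Real.rpow_le_rpow (Nat.cast_nonneg m)
      · push_cast; linarith
      · exact h6.le
    have h7 := mul_le_mul_of_nonneg_left (h2.trans h5) (by positivity : 0 ≤ 4 * β * kk α 0)
    have h8 : Real.exp (2 * β * kk α 0) - 1 ≤ C := by linarith
    have h9 : ((m.succ : ℕ) : ℝ) = ((m + 1 : ℕ) : ℝ) := rfl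
    rw [h9]
    linarith

/-- **Quantitative delocalisation.** -/
theorem secondMoment_rpow {α : ℝ} (hα : 2 < α) (hα3 : α < 3) :
    ∃ c : ℝ, 0 < c ∧ ∀ β : ℝ, 0 < β → ∃ N₀ : ℕ, ∀ N : ℕ, N₀ ≤ N →
      c * (N : ℝ) ^ (α - 2) / β ≤ secondMoment α β N := by
  have hα1 : 1 < α := by linarith
  have h3α : (0 : ℝ) < 3 - α := by linarith
  have hk0 := kk_nonneg α 0
  set D : ℝ := 8 * kk α 0 / (3 - α) + 1 with hD
  have hDpos : 0 < D := by positivity
  refine ⟨1 / (3 * D), by positivity, fun β hβ => ?_⟩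
  obtain ⟨A, hA, hS⟩ := exp_sum_le hα hα3 hβ
  -- `N` large
  have hl1 : Tendsto (fun N : ℕ => (N : ℝ) ^ (3 - α)) atTop atTop :=
    (tendsto_rpow_atTop h3α).comp tendsto_natCast_atTop_atTop
  have hl2 : Tendsto (fun N : ℕ => β * D * (N : ℝ) ^ (2 - α)) atTop (𝓝 0) := by
    have h := (tendsto_rpow_neg_atTop (y := α - 2) (by linarith)).comp
      (tendsto_natCast_atTop_atTop (R := ℝ))
    have h3 := h.const_mul (β * D)
    rw [mul_zero] at h3
    refine h3.congr fun r => ?_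
    simp only [Function.comp]
    rw [show -(α - 2) = 2 - α by ring]
  obtain ⟨N₀, hN₀⟩ := ((hl1.eventually_ge_atTop (2 * A / β)).and
    ((hl2.eventually_le_const zero_lt_one).and (eventually_ge_atTop 1))).exists_forall_of_atTop
  refine ⟨N₀, fun N hN => ?_⟩
  obtain ⟨hN1, hN2, hN3⟩ := hN₀ N hN
  have hNpos : (0 : ℝ) < N := by exact_mod_cast (by omega : 0 < N)
  set X : ℝ := β * D * (N : ℝ) ^ (2 - α) with hX
  have hXpos : 0 < X := by positivity
  -- one-dimensional sums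
  set F : ℕ → ℝ := fun r => Real.exp (2 * β * kk α r) - 1 with hF
  have hF0 : ∀ r, 0 ≤ F r := by
    intro r
    have : 0 ≤ 2 * β * kk α r := by
      have := kk_nonneg α r
      positivity
    have := Real.one_le_exp this
    simp only [hF]
    linarith
  set V : ℝ := ∑ s ∈ range N, ∑ s' ∈ range N, Real.exp (2 * β * kk α ((s : ℤ) - s').natAbs)
    with hV
  have hV1 : V - (N : ℝ) ^ 2 ≤ (N : ℝ) ^ 2 * X := by
    have e1 : V - (N : ℝ) ^ 2 = ∑ s ∈ range N, ∑ s' ∈ range N, F ((s : ℤ) - s').natAbs := by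
      simp only [hF, Finset.sum_sub_distrib, Finset.sum_const, Finset.card_range, nsmul_eq_mul,
        mul_one]
      rw [hV, sq]
    have e2 : ∑ s ∈ range N, ∑ s' ∈ range N, F ((s : ℤ) - s').natAbs ≤
        ∑ s ∈ range N, 2 * ∑ r ∈ range N, F r :=
      Finset.sum_le_sum fun s hs => sum_dist_le F hF0 N s (Finset.mem_range.1 hs)
    rw [Finset.sum_const, Finset.card_range, nsmul_eq_mul] at e2
    have e3 := hS N
    have e4 : A ≤ β / 2 * (N : ℝ) ^ (3 - α) := by
      rw [div_le_iff₀ hβ] at hN1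
      linarith
    have e5 : (N : ℝ) ^ 2 * X = β * D * ((N : ℝ) * (N : ℝ) ^ (3 - α)) := by
      have : (N : ℝ) ^ 2 * (N : ℝ) ^ (2 - α) = (N : ℝ) * (N : ℝ) ^ (3 - α) := by
        rw [show (3 : ℝ) - α = 1 + (2 - α) by ring, Real.rpow_add hNpos, Real.rpow_one]
        ring
      rw [hX]
      calc (N : ℝ) ^ 2 * (β * D * (N : ℝ) ^ (2 - α)) = β * D * ((N : ℝ) ^ 2 * (N : ℝ) ^ (2 - α)) := by
            ring
        _ = _ := by rw [this]
    rw [e1, e5]
    refine e2.trans ?_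
    have e6 : ∑ r ∈ range N, F r ≤ β / 2 * (N : ℝ) ^ (3 - α) +
        4 * β * kk α 0 * ((N : ℝ) ^ (3 - α) / (3 - α)) := by
      refine e3.trans ?_
      linarith
    have e7 : (N : ℝ) * (2 * ∑ r ∈ range N, F r) ≤ (N : ℝ) * (2 * (β / 2 * (N : ℝ) ^ (3 - α) +
        4 * β * kk α 0 * ((N : ℝ) ^ (3 - α) / (3 - α)))) := by
      gcongr
    refine e7.trans (le_of_eq ?_)
    rw [hD]
    field_simp
    ring
  have hVnn : 0 ≤ V := Finset.sum_nonneg fun s _ => Finset.sum_nonneg fun s' _ =>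
    (Real.exp_pos _).le
  -- the bound
  set lam : ℝ := 1 / (3 * X) with hlam
  have hlampos : 0 < lam := by positivity
  have hmem : ∀ q : Fin N × Fin N, iv q.1 q.2 ∈ Conf N := fun q =>
    iv_mem q.1.2.le q.2.2.le
  have h := secondMoment_ge hα1 hβ N (Finset.univ : Finset (Fin N × Fin N))
    (fun q => ⟨iv q.1 q.2, hmem q⟩) (fun _ => lam / (N : ℝ) ^ 2)
  refine le_trans ?_ h
  have h1 : ∑ q : Fin N × Fin N, (lam / (N : ℝ) ^ 2) *
      (((⟨iv q.1 q.2, hmem q⟩ : Conf N) : ℤ → ℤ) 0 : ℝ) = lam := by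
    simp only [iv_zero, Int.cast_one, mul_one, Finset.sum_const, Finset.card_univ,
      Fintype.card_prod, Fintype.card_fin, nsmul_eq_mul]
    push_cast
    field_simp
  rw [h1]
  have h2 : ∑ q : Fin N × Fin N, ∑ q' : Fin N × Fin N, (lam / (N : ℝ) ^ 2) * (lam / (N : ℝ) ^ 2) *
      (Real.exp (2 * β * BB α (iv q.1 q.2) (iv q'.1 q'.2)) - 1) ≤
      (lam / (N : ℝ) ^ 2) * (lam / (N : ℝ) ^ 2) * (V ^ 2 - (N : ℝ) ^ 4) := by
    have e1 : ∀ q q' : Fin N × Fin N,
        (lam / (N : ℝ) ^ 2) * (lam / (N : ℝ) ^ 2) *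
          (Real.exp (2 * β * BB α (iv q.1 q.2) (iv q'.1 q'.2)) - 1) ≤
        (lam / (N : ℝ) ^ 2) * (lam / (N : ℝ) ^ 2) *
          (Real.exp (2 * β * kk α (((q.1 : ℕ) : ℤ) - ((q'.1 : ℕ) : ℤ)).natAbs) *
            Real.exp (2 * β * kk α (((q.2 : ℕ) : ℤ) - ((q'.2 : ℕ) : ℤ)).natAbs) - 1) := by
      intro q q'
      refine mul_le_mul_of_nonneg_left ?_ (by positivity)
      rw [← Real.exp_add]
      refine sub_le_sub_right (Real.exp_le_exp.2 ?_) 1
      have := mul_le_mul_of_nonneg_left (BB_iv_le hα q.1 q.2 q'.1 q'.2)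
        (by positivity : 0 ≤ 2 * β)
      linarith
    refine (Finset.sum_le_sum fun q _ => Finset.sum_le_sum fun q' _ => e1 q q').trans ?_
    simp only [← Finset.mul_sum]
    refine mul_le_mul_of_nonneg_left (le_of_eq ?_) (by positivity)
    have e2 : V = ∑ s : Fin N, ∑ s' : Fin N,
        Real.exp (2 * β * kk α (((s : ℕ) : ℤ) - ((s' : ℕ) : ℤ)).natAbs) := by
      rw [hV, Finset.sum_range]
      refine Finset.sum_congr rfl fun s _ => ?_
      rw [Finset.sum_range]
    simp only [Finset.sum_sub_distrib, Finset.sum_const, Finset.card_univ, Fintype.card_prod,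
      Fintype.card_fin, nsmul_eq_mul, mul_one]
    have e3 : ∑ q : Fin N × Fin N, ∑ q' : Fin N × Fin N,
        Real.exp (2 * β * kk α (((q.1 : ℕ) : ℤ) - ((q'.1 : ℕ) : ℤ)).natAbs) *
          Real.exp (2 * β * kk α (((q.2 : ℕ) : ℤ) - ((q'.2 : ℕ) : ℤ)).natAbs) = V ^ 2 := by
      rw [sq, e2, Finset.sum_mul_sum, Fintype.sum_prod_type]
      refine Finset.sum_congr rfl fun s _ => Finset.sum_congr rfl fun t _ => ?_
      rw [Finset.sum_mul_sum, Fintype.sum_prod_type]
    rw [e3]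
    push_cast
    ring
  have h3 : V ^ 2 - (N : ℝ) ^ 4 ≤ (N : ℝ) ^ 4 * (3 * X) := by
    have e1 : V ≤ (N : ℝ) ^ 2 * (1 + X) := by linarith
    have e2 : V ^ 2 ≤ ((N : ℝ) ^ 2 * (1 + X)) ^ 2 := by gcongr
    have e3 : ((N : ℝ) ^ 2 * (1 + X)) ^ 2 - (N : ℝ) ^ 4 = (N : ℝ) ^ 4 * (2 * X + X * X) := by ring
    have e4 : X * X ≤ X := by nlinarith
    have e5 : (N : ℝ) ^ 4 * (2 * X + X * X) ≤ (N : ℝ) ^ 4 * (3 * X) := by
      apply mul_le_mul_of_nonneg_left _ (by positivity)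
      linarith
    linarith
  have h4 : (lam / (N : ℝ) ^ 2) * (lam / (N : ℝ) ^ 2) * (V ^ 2 - (N : ℝ) ^ 4) ≤ lam := by
    calc (lam / (N : ℝ) ^ 2) * (lam / (N : ℝ) ^ 2) * (V ^ 2 - (N : ℝ) ^ 4)
        ≤ (lam / (N : ℝ) ^ 2) * (lam / (N : ℝ) ^ 2) * ((N : ℝ) ^ 4 * (3 * X)) :=
          mul_le_mul_of_nonneg_left h3 (by positivity)
      _ = lam := by
          rw [hlam]
          field_simp
  have h5 : 1 / (3 * D) * (N : ℝ) ^ (α - 2) / β = lam := by
    rw [hlam, hX]
    have : (N : ℝ) ^ (α - 2) * (N : ℝ) ^ (2 - α) = 1 := by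
      rw [← Real.rpow_add hNpos]
      simp
    have hne : (N : ℝ) ^ (2 - α) ≠ 0 := by positivity
    field_simp
    linarith
  rw [h5]
  have h6 := h2.trans h4
  simp only at h6 ⊢
  linarith

end Pool.Agent.Zk97.DG
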